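import Pool.Agent.H18.QGR.Stmts
import Pool.Agent.H44.CGR.GRD

/-!
Row AVG of board qgr (MP_286349_an), helper54: almost cyclic polynomials.
-/

set_option autoImplicit false

noncomputable section

namespace Pool.QGR

open Pool.CGR

namespace H54AVG

theorem cn_cons {m : ℕ} (i a : Fin m) (f : E m) (w : List (Fin m)) :
    (cn i f) (a :: w) = if i = a then f w else 0 := by
  unfold cn
  rw [Finsupp.lmapDomain_apply]
  split_ifs with h
  · subst h
    exact Finsupp.mapDomain_apply (f := fun w => i :: w) (fun x y h => (List.cons.inj h).2) f w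
  · refine Finsupp.mapDomain_of_notMem_range _ _ ?_
    rintro ⟨v, hv⟩
    exact h (List.cons.inj hv).1

theorem cn_nil {m : ℕ} (i : Fin m) (f : E m) : (cn i f) [] = 0 := by
  unfold cn
  rw [Finsupp.lmapDomain_apply]
  refine Finsupp.mapDomain_of_notMem_range _ _ ?_
  rintro ⟨v, hv⟩
  exact List.cons_ne_nil _ _ hv

theorem sn_app {m : ℕ} (i b : Fin m) (f : E m) (v : List (Fin m)) :
    (sn i f) (v ++ [b]) = if i = b then f v else 0 := by
  unfold sn
  rw [Finsupp.lmapDomain_apply]
  split_ifs with h
  · subst h
    exact Finsupp.mapDomain_apply (f := fun w : List (Fin m) => w ++ [i])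
      (fun x y h => List.append_cancel_right h) f v
  · refine Finsupp.mapDomain_of_notMem_range _ _ ?_
    rintro ⟨u, hu⟩
    have h1 := congrArg List.getLast? hu
    simp only [List.getLast?_append, List.getLast?_singleton, Option.some_or,
      Option.some.injEq] at h1
    exact h h1

theorem sn_nil {m : ℕ} (i : Fin m) (f : E m) : (sn i f) [] = 0 := by
  unfold sn
  rw [Finsupp.lmapDomain_apply]
  refine Finsupp.mapDomain_of_notMem_range _ _ ?_
  rintro ⟨v, hv⟩
  exact absurd hv (by simp)

/-- the coefficient of a word -/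
def cf {m : ℕ} (p : Fin m → E m) : List (Fin m) → ℂ
  | [] => 0
  | a :: u => p a u

theorem gg_rot {m : ℕ} (p : Fin m → E m) (U : List (Fin m)) :
    gg p (U.rotate 1) = cf p (U.rotate 1) - cf p U := by
  cases U with
  | nil =>
    rw [List.rotate_nil, sub_self]
    unfold gg
    rw [Finsupp.finsetSum_apply]
    refine Finset.sum_eq_zero fun i _ => ?_
    rw [Finsupp.sub_apply, cn_nil, sn_nil, sub_zero]
  | cons b v =>
    have h1 : (b :: v).rotate 1 = v ++ [b] := by
      rw [List.rotate_cons_succ, List.rotate_zero]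
    rw [h1]
    unfold gg
    rw [Finsupp.finsetSum_apply]
    have h2 : ∀ i : Fin m, (cn i (p i) - sn i (p i)) (v ++ [b]) =
        (cn i (p i)) (v ++ [b]) - if i = b then p i v else 0 := fun i => by
      rw [Finsupp.sub_apply, sn_app]
    rw [Finset.sum_congr rfl fun i _ => h2 i, Finset.sum_sub_distrib, Finset.sum_ite_eq']
    simp only [Finset.mem_univ, if_true]
    have h3 : ∑ i, (cn i (p i)) (v ++ [b]) = cf p (v ++ [b]) := by
      cases v with
      | nil =>
        rw [List.nil_append]
        rw [Finset.sum_congr rfl fun i _ => cn_cons i b (p i) [], Finset.sum_ite_eq']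
        simp only [Finset.mem_univ, if_true]
        rfl
      | cons a u =>
        rw [List.cons_append]
        rw [Finset.sum_congr rfl fun i _ => cn_cons i a (p i) (u ++ [b]), Finset.sum_ite_eq']
        simp only [Finset.mem_univ, if_true]
        rfl
    rw [h3]
    rfl

/-- the mean over the rotations -/
def av {m : ℕ} (p : Fin m → E m) (W : List (Fin m)) : ℂ :=
  (∑ r ∈ Finset.range W.length, cf p (W.rotate r)) / (W.length : ℂ)

theorem av_rot {m : ℕ} (p : Fin m → E m) (W : List (Fin m)) : av p (W.rotate 1) = av p W := by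
  unfold av
  rw [List.length_rotate]
  congr 1
  have h1 : ∀ r, (W.rotate 1).rotate r = W.rotate (r + 1) := fun r => by
    rw [List.rotate_rotate, add_comm]
  rw [Finset.sum_congr rfl fun r _ => by rw [h1 r]]
  have h2 := Finset.sum_range_succ' (fun r => cf p (W.rotate r)) W.length
  rw [Finset.sum_range_succ, List.rotate_length, List.rotate_zero] at h2
  exact (add_right_cancel h2).symm

theorem av_sub {m : ℕ} (p : Fin m → E m) (W : List (Fin m)) (hW : W ≠ []) (M : ℕ)
    (hM : W.length ≤ M) :
    ‖av p W - cf p W‖ ≤ ∑ s ∈ Finset.range M, ‖gg p (W.rotate (s + 1))‖ := by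
  set D : ℝ := ∑ s ∈ Finset.range M, ‖gg p (W.rotate (s + 1))‖ with hD
  have hn : 0 < W.length := List.length_pos_iff.mpr hW
  have hn' : (W.length : ℂ) ≠ 0 := by exact_mod_cast hn.ne'
  have hd : ∀ s, gg p (W.rotate (s + 1)) = cf p (W.rotate (s + 1)) - cf p (W.rotate s) := by
    intro s
    have h1 := gg_rot p (W.rotate s)
    rwa [List.rotate_rotate] at h1
  have hr : ∀ r ∈ Finset.range W.length, ‖cf p (W.rotate r) - cf p W‖ ≤ D := by
    intro r hr
    have h1 : cf p (W.rotate r) - cf p W = ∑ s ∈ Finset.range r, gg p (W.rotate (s + 1)) := by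
      rw [Finset.sum_congr rfl fun s _ => hd s,
        Finset.sum_range_sub (fun s => cf p (W.rotate s)) r, List.rotate_zero]
    rw [h1]
    refine (norm_sum_le _ _).trans ?_
    refine Finset.sum_le_sum_of_subset_of_nonneg ?_ fun s _ _ => norm_nonneg _
    exact Finset.range_subset_range.mpr ((Finset.mem_range.mp hr).le.trans hM)
  have h2 : av p W - cf p W =
      (∑ r ∈ Finset.range W.length, (cf p (W.rotate r) - cf p W)) / (W.length : ℂ) := by
    unfold av
    rw [Finset.sum_sub_distrib, Finset.sum_const, Finset.card_range, sub_div, nsmul_eq_mul,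
      mul_div_cancel_left₀ _ hn']
  rw [h2, norm_div, Complex.norm_natCast]
  have hpos : (0 : ℝ) < W.length := by exact_mod_cast hn
  rw [div_le_iff₀ hpos]
  refine (norm_sum_le _ _).trans ((Finset.sum_le_sum hr).trans ?_)
  rw [Finset.sum_const, Finset.card_range, nsmul_eq_mul, mul_comm]

theorem sum_rot {m M : ℕ} (g : List (Fin m) → ℝ) (s : ℕ) :
    ∑ W ∈ wds m M, g (W.rotate s) = ∑ W ∈ wds m M, g W := by
  refine Finset.sum_bij' (fun W _ => W.rotate s) (fun W _ => W.rotate (W.length - s % W.length))
    ?_ ?_ ?_ ?_ ?_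
  · intro W hW
    rw [mem_wds, List.length_rotate]
    exact mem_wds.mp hW
  · intro W hW
    rw [mem_wds, List.length_rotate]
    exact mem_wds.mp hW
  · intro W _
    show (W.rotate s).rotate ((W.rotate s).length - s % (W.rotate s).length) = W
    rw [List.length_rotate, List.rotate_rotate, ← List.rotate_mod]
    rcases Nat.eq_zero_or_pos W.length with h | h
    · rw [List.length_eq_zero_iff.mp h, List.rotate_nil]
    · have h1 : (s + (W.length - s % W.length)) % W.length = 0 := by
        have h2 := Nat.mod_lt s h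
        have h3 : s = W.length * (s / W.length) + s % W.length := (Nat.div_add_mod s _).symm
        have h4 : s + (W.length - s % W.length) = W.length * (s / W.length + 1) := by
          rw [mul_add, mul_one]
          omega
        rw [h4, Nat.mul_mod_right]
      rw [h1, List.rotate_zero]
  · intro W _
    show (W.rotate (W.length - s % W.length)).rotate s = W
    rw [List.rotate_rotate, ← List.rotate_mod]
    rcases Nat.eq_zero_or_pos W.length with h | h
    · rw [List.length_eq_zero_iff.mp h, List.rotate_nil]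
    · have h1 : (W.length - s % W.length + s) % W.length = 0 := by
        have h2 := Nat.mod_lt s h
        have h3 : s = W.length * (s / W.length) + s % W.length := (Nat.div_add_mod s _).symm
        have h4 : W.length - s % W.length + s = W.length * (s / W.length + 1) := by
          rw [mul_add, mul_one]
          omega
        rw [h4, Nat.mul_mod_right]
      rw [h1, List.rotate_zero]
  · intro W _
    rfl

theorem sum_le_l1 {m : ℕ} (f : E m) (S : Finset (List (Fin m))) : ∑ W ∈ S, ‖f W‖ ≤ l1 f := by
  classical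
  unfold l1 Finsupp.sum
  have h1 : ∑ W ∈ S, ‖f W‖ = ∑ W ∈ S ∩ f.support, ‖f W‖ := by
    symm
    refine Finset.sum_subset Finset.inter_subset_left ?_
    intro W hW hW'
    have h2 : W ∉ f.support := fun h => hW' (Finset.mem_inter.mpr ⟨hW, h⟩)
    rw [Finsupp.notMem_support_iff.mp h2, norm_zero]
  rw [h1]
  exact Finset.sum_le_sum_of_subset_of_nonneg Finset.inter_subset_right fun _ _ _ => norm_nonneg _

theorem norm_ev_le {m : ℕ} {A : Type} [CStarAlgebra A] (x : Fin m → A) (ρ : ℝ) (hρ : 1 ≤ ρ)
    (hx : ∀ i, ‖x i‖ ≤ ρ) (w : List (Fin m)) : ‖ev x w‖ ≤ ρ ^ w.length := by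
  induction w with
  | nil =>
    unfold ev
    rw [List.map_nil, List.prod_nil, List.length_nil, pow_zero]
    rcases subsingleton_or_nontrivial A with h | h
    · rw [Subsingleton.elim (1 : A) 0, norm_zero]
      exact zero_le_one
    · exact (norm_one (α := A)).le
  | cons a w ih =>
    have h1 : ev x (a :: w) = x a * ev x w := by
      unfold ev
      rw [List.map_cons, List.prod_cons]
    rw [h1, List.length_cons, pow_succ']
    refine (norm_mul_le _ _).trans ?_
    exact mul_le_mul (hx a) ih (norm_nonneg _) (by linarith)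

end H54AVG

open H54AVG in
theorem avg_thm : AVGStmt := by
  intro m N p hp
  have hcyc : ∀ (a b : Fin m) (u v : List (Fin m)), a :: u = v ++ [b] →
      av p (a :: u) = av p (b :: v) := by
    intro a b u v h
    have h1 : (b :: v).rotate 1 = v ++ [b] := by
      rw [List.rotate_cons_succ, List.rotate_zero]
    rw [h, ← h1, av_rot]
  obtain ⟨H, hH⟩ := grd_thm m (fun a u => av p (a :: u)) hcyc
  refine ⟨H (N + 1), ?_⟩
  intro A _ x ρ hρ hx i
  rw [hH A x i (N + 1)]
  have h1 : evP x (p i) = ∑ w ∈ wds m (N + 1), (p i w) • ev x w := by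
    unfold evP
    rw [Finsupp.linearCombination_apply, Finsupp.sum]
    refine Finset.sum_subset ?_ ?_
    · intro w hw
      rw [mem_wds]
      by_contra h2
      exact (Finsupp.mem_support_iff.mp hw) (hp i w (by omega))
    · intro w _ hw
      rw [Finsupp.notMem_support_iff.mp hw, zero_smul]
  rw [h1, ← Finset.sum_sub_distrib]
  have hρ0 : 0 ≤ ρ ^ N := pow_nonneg (by linarith) N
  have h2 : ∀ w ∈ wds m (N + 1), ‖(fun a u => av p (a :: u)) i w • ev x w - p i w • ev x w‖ ≤
      ρ ^ N * ‖av p (i :: w) - cf p (i :: w)‖ := by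
    intro w hw
    have h3 : (fun a u => av p (a :: u)) i w • ev x w - p i w • ev x w =
        (av p (i :: w) - cf p (i :: w)) • ev x w := by
      rw [sub_smul]
      rfl
    rw [h3]
    refine (norm_smul_le _ _).trans ?_
    rw [mul_comm]
    refine mul_le_mul_of_nonneg_right ?_ (norm_nonneg _)
    refine (norm_ev_le x ρ hρ hx w).trans ?_
    exact pow_le_pow_right₀ hρ (by have := mem_wds.mp hw; omega)
  refine (norm_sum_le _ _).trans ((Finset.sum_le_sum h2).trans ?_)
  rw [← Finset.mul_sum, mul_assoc]
  refine mul_le_mul_of_nonneg_left ?_ hρ0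
  have h4 : ∀ w ∈ wds m (N + 1), ‖av p (i :: w) - cf p (i :: w)‖ ≤
      ∑ s ∈ Finset.range (N + 1), ‖gg p ((i :: w).rotate (s + 1))‖ := by
    intro w hw
    refine av_sub p (i :: w) (List.cons_ne_nil _ _) (N + 1) ?_
    rw [List.length_cons]
    have := mem_wds.mp hw
    omega
  refine (Finset.sum_le_sum h4).trans ?_
  rw [Finset.sum_comm]
  have h5 : ∀ s ∈ Finset.range (N + 1),
      ∑ w ∈ wds m (N + 1), ‖gg p ((i :: w).rotate (s + 1))‖ ≤ l1 (gg p) := by
    intro s _
    classical
    have h6 : ∑ w ∈ wds m (N + 1), ‖gg p ((i :: w).rotate (s + 1))‖ =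
        ∑ W ∈ (wds m (N + 1)).image (fun w => i :: w), ‖gg p (W.rotate (s + 1))‖ := by
      rw [Finset.sum_image]
      intro u _ v _ h
      exact (List.cons.inj h).2
    rw [h6]
    have h7 : (wds m (N + 1)).image (fun w => i :: w) ⊆ wds m (N + 2) := by
      intro W hW
      obtain ⟨w, hw, rfl⟩ := Finset.mem_image.mp hW
      rw [mem_wds, List.length_cons]
      have := mem_wds.mp hw
      omega
    refine (Finset.sum_le_sum_of_subset_of_nonneg h7 fun _ _ _ => norm_nonneg _).trans ?_
    rw [sum_rot (fun W => ‖gg p W‖) (s + 1)]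
    exact sum_le_l1 _ _
  refine (Finset.sum_le_sum h5).trans ?_
  rw [Finset.sum_const, Finset.card_range, nsmul_eq_mul]
  push_cast
  exact le_refl _

end Pool.QGR
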